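import Pool.Agent.W192.WO.Parts
import Pool.Agent.W216.CY.Div
import Pool.Agent.W230.CY.Orth
import Pool.Agent.W74.CY.WPP
import Pool.Agent.W305.CY.Weil
import Pool.Agent.W143.CY.COUNT
import Pool.Agent.W736.CY.GTAIL
import Pool.Agent.W155.CY.MobM
import Pool.Agent.W976.CY.Kloom
import Pool.Agent.W513.HK.V
import Pool.Agent.W138.WO.EUL
import Pool.Agent.W82.WO.MainpW
import Pool.Agent.W753.WO.Dualp
import Pool.Agent.W471.WO.Finn
import Pool.Agent.W538.WO.Coef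
import Pool.Agent.W597.WO.Twist
import Pool.Agent.W435.WO.AFE

/-!
# Central values of odd two-dimensional Artin L-functions twisted by characters of large order

`f ∈ S_1(Γ₁(N))` is a newform of weight one with character `η`; these are the odd irreducible
two-dimensional Artin representations `ρ` of `ℚ` (Deligne–Serre, Khare–Wintenberger),
`L(f, χ, s) = L(ρ ⊗ χ, s)`.  For all but finitely many primitive Dirichlet characters `χ` of
conductor `q` prime to `N` and of order at least `q ^ (3/4 + ε)` some Galois conjugate `ψ = χ ^ a` (`a`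
prime to the order of `χ` and `≡ 1` modulo any given integer) satisfies
`|L(ρ ⊗ ψ, 1/2)| ≥ q ^ (-ε)`.

Joint work of helper192 with helpers 74, 82, 138, 143, 155, 216, 230, 305, 435, 471, 513, 538, 597,
736, 753, 976 and the authors of the library on twists of newforms they use.
-/

set_option autoImplicit false

open Complex UpperHalfPlane MatrixGroups CongruenceSubgroup

namespace Pool.Agent.Results.MP_3b6604_nt.OddTwoDimensionalTwists

/-- The `n`-th Fourier coefficient of `f`. -/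
noncomputable def coef {N : ℕ} (f : CuspForm (Gamma1 N : Subgroup (GL (Fin 2) ℝ)) 1)
    (n : ℕ) : ℂ :=
  (qExpansion 1 f).coeff n

/-- `f ∈ S_1(Γ₁(N))` is a newform of weight one with character `η`: `f(γτ) = η(d) (cτ + d) f(τ)` for
all `γ = (a b; c d) ∈ Γ₀(N)`, the Fourier coefficients `c(n)` of `f` satisfy `c(1) = 1`,
`c(ab) = c(a) c(b)` for coprime `a`, `b`, `c(p^(j+2)) = c(p) c(p^(j+1)) - η(p) c(p^j)`, and for the
primes `p ∤ N` also `conj c(p) = conj η(p) c(p)` and `|c(p)| ≤ 2`, for the primes `p ∣ N`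
`|c(p)| ≤ 1` (Deligne–Serre); the Fricke involution takes `f` to a multiple of `f^c`,
`f^c(τ) = conj f(-conj τ)`: `f(-1/(Nτ)) = w √N (τ/i) f^c(τ)` with `|w| = 1`. -/
structure IsNewform (N : ℕ) (η : DirichletCharacter ℂ N)
    (f : CuspForm (Gamma1 N : Subgroup (GL (Fin 2) ℝ)) 1) : Prop where
  neb : ∀ γ : SL(2, ℤ), γ ∈ Gamma0 N → ∀ τ : ℍ, f (γ • τ) = η ((γ 1 1 : ℤ) : ZMod N) *
    (((γ 1 0 : ℤ) : ℂ) * (τ : ℂ) + ((γ 1 1 : ℤ) : ℂ)) * f τ
  one : coef f 1 = 1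
  mul : ∀ a b : ℕ, Nat.Coprime a b → coef f (a * b) = coef f a * coef f b
  pow : ∀ p j : ℕ, p.Prime → coef f (p ^ (j + 2)) = coef f p * coef f (p ^ (j + 1)) -
    η (p : ZMod N) * coef f (p ^ j)
  conj : ∀ p : ℕ, p.Prime → ¬ p ∣ N → (starRingEnd ℂ) (coef f p) =
    (starRingEnd ℂ) (η (p : ZMod N)) * coef f p
  good : ∀ p : ℕ, p.Prime → ¬ p ∣ N → ‖coef f p‖ ≤ 2
  bad : ∀ p : ℕ, p.Prime → p ∣ N → ‖coef f p‖ ≤ 1
  fricke : ∃ w : ℂ, ‖w‖ = 1 ∧ ∀ τ τ' τc : ℍ, (τ' : ℂ) * ((N : ℂ) * (τ : ℂ)) = -1 →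
    (τc : ℂ) = -(starRingEnd ℂ) (τ : ℂ) →
    f τ' = w * (Real.sqrt N : ℂ) * ((τ : ℂ) / Complex.I) * (starRingEnd ℂ) (f τc)

/-- The Euler factor of `L(f, χ, s)` at the prime `p`:
`(1 - χ(p) c(p) p^(-s) + χ(p)² η(p) p^(-2s))⁻¹`. -/
noncomputable def factor {N : ℕ} (η : DirichletCharacter ℂ N)
    (f : CuspForm (Gamma1 N : Subgroup (GL (Fin 2) ℝ)) 1) (q : ℕ)
    (χ : DirichletCharacter ℂ q) (s : ℂ) (p : ℕ) : ℂ :=
  (1 - χ (p : ZMod q) * coef f p * (p : ℂ) ^ (-s) +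
    χ (p : ZMod q) ^ 2 * η (p : ZMod N) * (p : ℂ) ^ (-2 * s))⁻¹

theorem newf1 {N : ℕ} {η : DirichletCharacter ℂ N}
    {f : CuspForm (Gamma1 N : Subgroup (GL (Fin 2) ℝ)) 1} (hf : IsNewform N η f) :
    ∃ w : ℂ, Pool.Agent.W192.WO.Newf1 N η f w := by
  obtain ⟨w, hw, hfr⟩ := hf.fricke
  exact ⟨w, ⟨hf.one, hf.mul, hf.pow, hf.conj, hf.good, hf.bad, hf.neb, hw, hfr⟩⟩

/-- **Main theorem.** Let `f ∈ S_1(Γ₁(N))` be a newform of weight one with character `η`.  For every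
primitive Dirichlet character `χ` of conductor `q` prime to `N` there is an entire function `L q χ`
which for `Re s > 1` is the Euler product of `L(f, χ, s)`; and for every `M ≥ 1` and every
`ε > 0` there is `q₀` such that for all `q ≥ q₀` prime to `N` and all primitive characters `χ` modulo
`q` of order at least `q ^ (3/4 + ε)` there is a natural number `a` prime to the order of `χ`,
`a ≡ 1 mod M`, such that `χ ^ a` is primitive and `|L(f, χ ^ a, 1/2)| ≥ q ^ (-ε)`. -/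
theorem result (N : ℕ) [NeZero N] (η : DirichletCharacter ℂ N)
    (f : CuspForm (Gamma1 N : Subgroup (GL (Fin 2) ℝ)) 1) (hf : IsNewform N η f) :
    ∃ L : (q : ℕ) → DirichletCharacter ℂ q → ℂ → ℂ,
      (∀ (q : ℕ) (χ : DirichletCharacter ℂ q), 1 ≤ q → Nat.Coprime q N → χ.IsPrimitive →
        Differentiable ℂ (L q χ) ∧ ∀ s : ℂ, 1 < s.re →
          HasProd (fun p : Nat.Primes => factor η f q χ s p) (L q χ s)) ∧
      ∀ M : ℕ, 1 ≤ M → ∀ ε : ℝ, 0 < ε → ∃ q0 : ℕ, ∀ q : ℕ, q0 ≤ q → Nat.Coprime q N →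
        ∀ χ : DirichletCharacter ℂ q, χ.IsPrimitive → (q : ℝ) ^ (3 / 4 + ε) ≤ orderOf χ →
          ∃ a : ℕ, Nat.Coprime a (orderOf χ) ∧ a ≡ 1 [MOD M] ∧ (χ ^ a).IsPrimitive ∧
            (q : ℝ) ^ (-ε) ≤ ‖L q (χ ^ a) (1 / 2)‖ := by
  obtain ⟨w, hw⟩ := newf1 hf
  have hdiv := Pool.Agent.W216.CY.t_div
  have horth := Pool.Agent.W230.CY.t_orth
  have hweil := Pool.Agent.W305.CY.t_weil Pool.Agent.W74.CY.wpp hdiv
  have htail := Pool.Agent.W736.CY.GTAIL.t_gtail (Pool.Agent.W143.CY.g_count hdiv)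
  have hmob := Pool.Agent.W155.CY.m_mob
  have hkloo := Pool.Agent.W976.CYKloom.m_kloo horth hweil
  have htwist := Pool.Agent.W597.WO.w_twist
  have hcoef := Pool.Agent.W538.WO.w_coef
  have heul := Pool.Agent.W138.WO.EUL.w_eul hcoef
  have hafe := Pool.Agent.W435.WO.w_afe htwist heul
  have hmain := Pool.Agent.W82.WO.w_mainp hdiv horth hmob htail
  have hdual := Pool.Agent.W753.WO.w_dualp hdiv hmob hkloo
  have hfin := Pool.Agent.W471.WO.w_finn hdiv hmob hmain hdual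
  have hN : 1 ≤ N := Nat.pos_of_ne_zero (NeZero.ne N)
  obtain ⟨CV, hCV⟩ := Pool.Agent.W513.HK.n_v
  obtain ⟨μ, hμ⟩ := hcoef N η f w hw
  classical
  have hex : ∀ (q : ℕ) (χ : DirichletCharacter ℂ q), ∃ F : ℂ → ℂ,
      (1 ≤ q → Nat.Coprime q N → χ.IsPrimitive → Differentiable ℂ F ∧
        (∀ s : ℂ, 1 < s.re →
          HasProd (fun p : Nat.Primes => factor η f q χ s p) (F s)) ∧
        (∀ (_ : NeZero q), ∀ X Y : ℝ, 0 < X → 0 < Y →
          X * Y = N * (q : ℝ) ^ 2 / (4 * Real.pi ^ 2) →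
          F (1 / 2) =
            ∑' n : ℕ, χ (n : ZMod q) * (coef f n * (Real.sqrt n : ℂ)) / n *
              (Pool.Agent.W192.HK.V0 (n / X) : ℂ) +
            (w * η (q : ZMod N)) * χ (N : ZMod q) *
                gaussSum χ (ZMod.stdAddChar (N := q)) ^ 2 / q *
              ∑' n : ℕ, (starRingEnd ℂ) (χ (n : ZMod q)) *
                (starRingEnd ℂ) (coef f n * (Real.sqrt n : ℂ)) / n *
              (Pool.Agent.W192.HK.V0 (n / Y) : ℂ))) := by
    intro q χ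
    by_cases h : 1 ≤ q ∧ Nat.Coprime q N ∧ χ.IsPrimitive
    · obtain ⟨h1, h2, h3⟩ := h
      haveI : NeZero q := ⟨by omega⟩
      obtain ⟨F, hF1, hF2, hF3⟩ := hafe N η f w hw q χ h2 h3
      refine ⟨F, fun _ _ _ => ⟨hF1, fun s hs => ?_, fun _ => hF3⟩⟩
      rw [hF2 s hs]
      exact (heul N η f w hw q χ s hs).2
    · exact ⟨fun _ => 0, fun h1 h2 h3 => absurd ⟨h1, h2, h3⟩ h⟩
  choose F hF using hex
  refine ⟨F, ?_, ?_⟩
  · intro q χ hq hqN hχ
    exact ⟨(hF q χ hq hqN hχ).1, (hF q χ hq hqN hχ).2.1⟩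
  · intro M hM ε hε
    have hc1 : (fun n : ℕ => Pool.Agent.W192.CY.cf f n * (Real.sqrt n : ℂ)) 1 = 1 := by
      have := hw.one
      simp [this]
    obtain ⟨q0, h0⟩ := hfin Pool.Agent.W192.HK.V0 CV hCV N hN _ μ hc1 hμ M hM ε hε
    refine ⟨max ⌈q0⌉₊ 1, fun q hq hqN χ hχ hord => ?_⟩
    have hq1 : 1 ≤ q := le_trans (le_max_right _ _) hq
    haveI : NeZero q := ⟨by omega⟩
    have hq0 : q0 ≤ q := (Nat.le_ceil q0).trans (by exact_mod_cast le_trans (le_max_left _ _) hq)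
    have hηq : ‖w * η (q : ZMod N)‖ = 1 := by
      have h1 : IsUnit (q : ZMod N) := (ZMod.isUnit_iff_coprime q N).mpr hqN
      rw [norm_mul, hw.norm, one_mul]
      obtain ⟨u, hu⟩ := h1
      rw [← hu]
      exact η.unit_norm_eq_one u
    exact h0 q hq0 hqN (w * η (q : ZMod N)) hηq (fun χ => F q χ (1 / 2))
      (fun χ hχ X Y hX hY hXY => (hF q χ hq1 hqN hχ).2.2 _ X Y hX hY hXY) χ hχ hord

end Pool.Agent.Results.MP_3b6604_nt.OddTwoDimensionalTwists
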